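import Pool.Agent.N816.LR.Defs

set_option autoImplicit false

/-!
# Finite subgroups of `F(L) ⋊ Q` (`Q` permuting the basis `L`) are conjugate into `Q`
-/

namespace Pool.Agent.N41.LRV

open Pool.Agent.N816.LR

section Words


/-- No cancellation: if the first letters of `x` and `y` differ then the norms add up in
`x⁻¹ * y`. -/
theorem norm_inv_mul {L : Type} [DecidableEq L] (x y : FreeGroup L)
    (h : x.toWord.head? ≠ y.toWord.head?) :
    (x⁻¹ * y).norm = x.norm + y.norm := by
  have h1 : FreeGroup.IsReduced (x⁻¹.toWord ++ y.toWord) := by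
    unfold FreeGroup.IsReduced
    rw [List.isChain_append]
    refine ⟨FreeGroup.isReduced_toWord, FreeGroup.isReduced_toWord, ?_⟩
    intro a ha b hb hab
    rw [FreeGroup.toWord_inv, FreeGroup.invRev, List.getLast?_reverse] at ha
    rw [List.head?_map] at ha
    by_contra hne
    apply h
    rw [Option.mem_def] at ha hb
    rw [hb]
    rcases hx' : x.toWord.head? with _ | c
    · rw [hx'] at ha; simp at ha
    · rw [hx'] at ha
      simp only [Option.map_some, Option.some.injEq] at ha
      congr 1
      subst ha
      simp only at hab hne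
      apply Prod.ext hab
      revert hne
      cases c.2 <;> cases b.2 <;> simp
  unfold FreeGroup.norm
  rw [FreeGroup.toWord_mul, h1.reduce_eq, List.length_append, FreeGroup.toWord_inv,
    FreeGroup.invRev_length]

/-- The action on letters. -/
def la {Q L : Type} [Group Q] [MulAction Q L] (q : Q) (a : L × Bool) : L × Bool := (q • a.1, a.2)

theorem pa_mk {Q L : Type} [Group Q] [MulAction Q L] (q : Q) (w : List (L × Bool)) :
    pa Q L q (FreeGroup.mk w) = FreeGroup.mk (w.map (la q)) := by
  change FreeGroup.freeGroupCongr (MulAction.toPerm q) (FreeGroup.mk w) = _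
  rfl

theorem toWord_pa {Q L : Type} [Group Q] [MulAction Q L] [DecidableEq L] (q : Q)
    (x : FreeGroup L) : (pa Q L q x).toWord = x.toWord.map (la q) := by
  conv_lhs => rw [← FreeGroup.mk_toWord (x := x), pa_mk, FreeGroup.toWord_mk]
  apply FreeGroup.IsReduced.reduce_eq
  have h := FreeGroup.isReduced_toWord (x := x)
  unfold FreeGroup.IsReduced at h ⊢
  rw [List.isChain_map]
  refine h.imp ?_
  intro a b hab h2
  exact hab (MulAction.injective q h2)

theorem norm_pa {Q L : Type} [Group Q] [MulAction Q L] [DecidableEq L] (q : Q)
    (x : FreeGroup L) : (pa Q L q x).norm = x.norm := by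
  unfold FreeGroup.norm
  rw [toWord_pa, List.length_map]

end Words

section Main

variable {Q L F : Type} [Group Q] [MulAction Q L] [Group F]

theorem left_mul (s : F →* FreeGroup L ⋊[pa Q L] Q) (g h : F) :
    (s (g * h)).left = (s g).left * pa Q L (s g).right (s h).left := by
  rw [map_mul, SemidirectProduct.mul_left]

theorem fp_aux [Finite F] [DecidableEq L] (n : ℕ) : ∀ (s : F →* FreeGroup L ⋊[pa Q L] Q),
    (∀ g, (s g).left.norm ≤ n) →
    ∃ u : FreeGroup L, ∀ g, s g = SemidirectProduct.inl u * SemidirectProduct.inr (s g).right *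
      (SemidirectProduct.inl u)⁻¹ := by
  induction n using Nat.strong_induction_on with
  | _ n ih =>
  intro s hs
  obtain ⟨g₀, hg₀⟩ := Finite.exists_max (fun g => (s g).left.norm)
  by_cases h0 : (s g₀).left.norm = 0
  · refine ⟨1, fun g => ?_⟩
    have h1 : (s g).left = 1 := by
      rw [← FreeGroup.norm_eq_zero]
      have := hg₀ g
      omega
    rw [map_one, one_mul, inv_one, mul_one]
    apply SemidirectProduct.ext
    · rw [SemidirectProduct.left_inr, h1]
    · rw [SemidirectProduct.right_inr]
  -- the first letter
  obtain ⟨l, hl⟩ : ∃ l, (s g₀).left.toWord.head? = some l := by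
    rcases hw : (s g₀).left.toWord with _ | ⟨l, w⟩
    · exfalso; apply h0; unfold FreeGroup.norm; rw [hw]; rfl
    · exact ⟨l, rfl⟩
  -- inverse formula
  have hinv : ∀ h : F, ((s h).left)⁻¹ = pa Q L (s h).right (s h⁻¹).left := by
    intro h
    have := left_mul s h h⁻¹
    rw [mul_inv_cancel, map_one, SemidirectProduct.one_left] at this
    exact inv_eq_of_mul_eq_one_right this.symm
  -- Claim 1
  have c1 : ∀ h : F, (s h).left ≠ 1 → (s h).left.toWord.head? = some l := by
    intro h hh
    by_contra hne
    have h1 := norm_inv_mul (s h).left (s g₀).left (by rw [hl]; exact hne)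
    have h2 : ((s h).left)⁻¹ * (s g₀).left = pa Q L (s h).right (s (h⁻¹ * g₀)).left := by
      have := left_mul s h (h⁻¹ * g₀)
      rw [mul_inv_cancel_left] at this
      rw [this, inv_mul_cancel_left]
    rw [h2, norm_pa] at h1
    have h3 := hg₀ (h⁻¹ * g₀)
    have h4 : (s h).left.norm ≠ 0 := fun h5 => hh (FreeGroup.norm_eq_zero.1 h5)
    omega
  -- Claim 2
  have c2 : ∀ h : F, (s h).left ≠ 1 →
      (((s h).left)⁻¹).toWord.head? = some (la (s h).right l) := by
    intro h hh
    have h1 : (s h⁻¹).left ≠ 1 := by
      intro h2
      have := hinv h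
      rw [h2, map_one, inv_eq_one] at this
      exact hh this
    rw [hinv h, toWord_pa, List.head?_map, c1 _ h1]
    rfl
  -- Claim 3
  have c3 : ∀ h : F, (s h).left = 1 → la (s h).right l = l := by
    intro h hh
    have h1 := left_mul s h g₀
    rw [hh, one_mul] at h1
    have h2 : (s (h * g₀)).left.toWord.head? = some (la (s h).right l) := by
      rw [h1, toWord_pa, List.head?_map, hl]
      rfl
    have h3 : (s (h * g₀)).left ≠ 1 := by
      intro h4
      rw [h4, FreeGroup.toWord_one] at h2
      simp at h2
    rw [c1 _ h3] at h2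
    exact (Option.some.inj h2).symm
  -- the new homomorphism
  let t : FreeGroup L := FreeGroup.mk [l]
  have key : ∀ h : F, (t⁻¹ * (s h).left * pa Q L (s h).right t).norm ≤
      (s g₀).left.norm - 2 := by
    intro h
    by_cases hh : (s h).left = 1
    · have h1 : pa Q L (s h).right t = t := by
        change pa Q L (s h).right (FreeGroup.mk [l]) = FreeGroup.mk [l]
        rw [pa_mk]
        simp [c3 h hh]
      rw [hh, h1, mul_one, inv_mul_cancel, FreeGroup.norm_one]
      exact Nat.zero_le _
    · have h1 := c1 h hh
      have h2 := c2 h hh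
      obtain ⟨w, hw⟩ : ∃ w, (s h).left.toWord = l :: w := by
        rcases hw : (s h).left.toWord with _ | ⟨l', w⟩
        · rw [hw] at h1; simp at h1
        · rw [hw] at h1
          simp only [List.head?_cons, Option.some.injEq] at h1
          exact ⟨w, by rw [h1]⟩
      -- the last letter
      have h3 : (s h).left.toWord.getLast? = some ((la (s h).right l).1, !l.2) := by
        rw [FreeGroup.toWord_inv, FreeGroup.invRev, List.head?_reverse, List.getLast?_map] at h2
        rcases hg : (s h).left.toWord.getLast? with _ | c
        · rw [hg] at h2; simp at h2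
        · rw [hg] at h2
          simp only [Option.map_some, Option.some.injEq] at h2
          rw [← h2]
          congr 1
          apply Prod.ext
          · rfl
          · have : (la (s h).right l).2 = l.2 := rfl
            rw [← this, ← h2]
            simp
      rw [hw] at h3
      rcases List.eq_nil_or_concat w with hw' | ⟨w', c, hw'⟩
      · exfalso
        rw [hw'] at h3
        simp only [List.getLast?_singleton, Option.some.injEq] at h3
        have := congrArg Prod.snd h3
        simp at this
      · rw [hw', List.concat_eq_append] at h3 hw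
        have h4 : c = ((la (s h).right l).1, !l.2) := by
          rw [← List.cons_append, List.getLast?_append] at h3
          simpa using h3
        have h5 : t⁻¹ * (s h).left * pa Q L (s h).right t = FreeGroup.mk w' := by
          have h6 : (s h).left = t * FreeGroup.mk w' * (pa Q L (s h).right t)⁻¹ := by
            rw [← FreeGroup.mk_toWord (x := (s h).left), hw]
            change _ = FreeGroup.mk [l] * FreeGroup.mk w' * (pa Q L (s h).right (FreeGroup.mk [l]))⁻¹
            rw [pa_mk, FreeGroup.inv_mk, FreeGroup.mul_mk, FreeGroup.mul_mk, h4]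
            simp [FreeGroup.invRev, la]
          rw [h6]
          group
        rw [h5]
        refine FreeGroup.norm_mk_le.trans ?_
        have h7 := hg₀ h
        simp only [FreeGroup.norm] at h7
        rw [hw] at h7
        simp only [List.length_cons, List.length_append, List.length_nil] at h7
        unfold FreeGroup.norm
        omega
  let s' : F →* FreeGroup L ⋊[pa Q L] Q :=
    (MulAut.conj (SemidirectProduct.inl t : FreeGroup L ⋊[pa Q L] Q)⁻¹).toMonoidHom.comp s
  have hs' : ∀ g, s' g = (SemidirectProduct.inl t)⁻¹ * s g * SemidirectProduct.inl t := by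
    intro g
    change (MulAut.conj (SemidirectProduct.inl t : FreeGroup L ⋊[pa Q L] Q)⁻¹) (s g) = _
    rw [MulAut.conj_apply, inv_inv]
  have hl' : ∀ g, (s' g).left = t⁻¹ * (s g).left * pa Q L (s g).right t := by
    intro g
    rw [hs']
    simp [SemidirectProduct.mul_left, ← map_inv]
  have hr' : ∀ g, (s' g).right = (s g).right := by
    intro g
    rw [hs']
    simp [SemidirectProduct.mul_right, ← map_inv]
  have hm : (s g₀).left.norm ≤ n := hs g₀
  obtain ⟨u, hu⟩ := ih ((s g₀).left.norm - 2) (by omega) s' (by
    intro g
    rw [hl']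
    exact key g)
  refine ⟨t * u, fun g => ?_⟩
  have h8 := hu g
  rw [hr', hs'] at h8
  have h9 : s g = SemidirectProduct.inl t * ((SemidirectProduct.inl t)⁻¹ * s g *
      SemidirectProduct.inl t) * (SemidirectProduct.inl t)⁻¹ := by group
  rw [h9, h8, map_mul]
  have h10 : ((SemidirectProduct.inl t : FreeGroup L ⋊[pa Q L] Q) *
      (SemidirectProduct.inl u * SemidirectProduct.inr (s g).right *
        (SemidirectProduct.inl u)⁻¹) * (SemidirectProduct.inl t)⁻¹).right = (s g).right := by
    simp [SemidirectProduct.mul_right, ← map_inv]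
  rw [h10]
  group

/-- Finite subgroups of `F(L) ⋊ Q` (with `Q` permuting the basis) are conjugate into `Q`. -/
theorem fp {Q L F : Type} [Group Q] [MulAction Q L] [Group F] [Finite F]
    (s : F →* FreeGroup L ⋊[pa Q L] Q) :
    ∃ u : FreeGroup L, ∀ g, s g = SemidirectProduct.inl u * SemidirectProduct.inr (s g).right *
      (SemidirectProduct.inl u)⁻¹ := by
  classical
  obtain ⟨g₀, hg₀⟩ := Finite.exists_max (fun g => (s g).left.norm)
  exact fp_aux _ s hg₀

end Main

end Pool.Agent.N41.LRV
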